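import Pool.Agent.Helper1.TE.Goals2

/-!
# PROJECT TE (MP_8b4d68_lc), packet EOK: the gadget of the machine is a gadget
-/

namespace Pool.Agent.Helper39.TE

open Pool.Agent.Helper1.TE

theorem gEOK : GoalEOK := by
  intro hCT hEA hPB hCE hCSD hCL hCD hCO hGA hGC hGD h b hh hb
  obtain ⟨hs1, hsb, hLP, hP, -, -, h3b, -, -, hsW⟩ := hPB h b hh hb
  have hc : cM h b (2 ^ EP h b) = sym (sP h b) b (seed b (2 ^ EP h b)) := hEA hCT h b _ hsW
  have hgood : Good b (seed b (2 ^ EP h b)) := hCSD hCE b _ hb h3b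
  have hcode := hCO hCL hCD b (seed b (2 ^ EP h b)) (sP h b) hs1 hsb hgood
  have hok := hGD hGA hGC _ _ _ _ _ hcode
  unfold gadM
  rw [hc, hLP]
  exact hok

end Pool.Agent.Helper39.TE
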